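import Pool.Agent.Lib.MP_5350f3_lc.Defs

set_option autoImplicit false

/-! Two cliques against a copy flipped on a complete bipartite graph. -/

namespace Pool.Agent.FS.CommonSketch

open Finset Pool.Agent.Lib.MP_5350f3_lc

theorem corner {α β γ : Type} [Fintype α] [Fintype β] [Fintype γ] (c : α → β → γ)
    (h : ∀ a b a' b', c a' b = c a b → c a b' = c a b → a' = a ∨ b' = b) :
    Fintype.card α * Fintype.card β ≤ Fintype.card γ * (Fintype.card α + Fintype.card β) := by
  classical
  rw [← Fintype.card_prod, ← Fintype.card_sum, ← Fintype.card_prod]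
  refine Fintype.card_le_of_injective (fun x => (c x.1 x.2,
    if ∀ b', c x.1 b' = c x.1 x.2 → b' = x.2 then Sum.inl x.1 else Sum.inr x.2)) ?_
  rintro ⟨a, b⟩ ⟨a', b'⟩ e
  simp only [Prod.mk.injEq] at e ⊢
  obtain ⟨e1, e2⟩ := e
  split_ifs at e2 with h1 h2 h2
  · obtain rfl := Sum.inl.inj e2
    exact ⟨rfl, (h1 b' e1.symm).symm⟩
  · obtain rfl := Sum.inr.inj e2
    push Not at h1
    obtain ⟨b', h3, h4⟩ := h1
    exact ⟨((h a b a' b' e1.symm h3).resolve_right h4).symm, rfl⟩

variable {n : ℕ}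

/-- Two cliques given by `s`, with all pairs between the supports of `p` and `q` flipped. -/
def gr (s p q : Fin n → Bool) : SimpleGraph (Fin n) where
  Adj i j := i ≠ j ∧ (s j ^^ (p i && q j || q i && p j)) = s i
  symm := ⟨fun i j h => ⟨h.1.symm, by
    have := h.2
    revert this
    cases s i <;> cases s j <;> cases p i <;> cases p j <;> cases q i <;> cases q j <;> simp⟩⟩
  loopless := ⟨fun i h => h.1 rfl⟩

/-- One side of a two-colouring. -/
def side (t : Fin n → Bool) (v : Bool) : Finset (Fin n) := univ.filter fun j => t j = v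

theorem nbhd_gr (s p q : Fin n → Bool) (i : Fin n) (hi : (p i && q i) = false) :
    closedNbhd (gr s p q) i = side (fun j => s j ^^ (p i && q j || q i && p j)) (s i) := by
  ext j
  simp only [closedNbhd, side, gr, mem_filter, mem_univ, true_and]
  by_cases h : j = i
  · subst h
    revert hi
    cases s j <;> cases p j <;> cases q j <;> simp
  · simp [h, Ne.symm h]

theorem flip_false {M : ℕ} {μ : Fin n → Finset (Fin n) → List Bool}
    {R : (Fin n → List Bool) → Bool}
    (h1 : ∀ G : SimpleGraph (Fin n), HasInducedP3 G → R (fun i => μ i (closedNbhd G i)) = true)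
    (h2 : ∀ G : SimpleGraph (Fin n), ¬ HasInducedP3 G → Nat.card G.ConnectedComponent ≤ 2 →
      R (fun i => μ i (closedNbhd G i)) = false)
    {T : Finset (Fin n)} {ν : Finset (Fin n) → Fin M}
    (hν : ∀ i ∈ T, ∀ A B, i ∈ A → i ∈ B → A \ T = B \ T → ν A = ν B → μ i A = μ i B)
    (s p q : Fin n → Bool) (hpq : ∀ i, (p i && q i) = false)
    (hp : ∀ i, p i = true → i ∈ T) (hq : ∀ i, q i = true → i ∈ T)
    (z : Bool → Fin n) (hz : ∀ v, s (z v) = v ∧ p (z v) = false ∧ q (z v) = false)
    {i0 j0 : Fin n} (hi : p i0 = true) (hj : q j0 = true)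
    (e1 : ∀ v, ν (side (fun j => s j ^^ p j) v) = ν (side s v))
    (e2 : ∀ v, ν (side (fun j => s j ^^ q j) v) = ν (side s v)) : False := by
  have key : ∀ r : Fin n → Bool, (∀ i, r i = true → i ∈ T) →
      (∀ v, ν (side (fun j => s j ^^ r j) v) = ν (side s v)) → ∀ i ∈ T, r i = false →
      μ i (side (fun j => s j ^^ r j) (s i)) = μ i (side s (s i)) := by
    intro r hr e i hiT hri
    refine hν i hiT _ _ (by simp [side, hri]) (by simp [side]) ?_ (e _)
    ext j
    simp only [side, mem_sdiff, mem_filter, mem_univ, true_and]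
    refine and_congr_left fun hj => ?_
    have : r j = false := by simpa using fun h => hj (hr j h)
    simp [this]
  have hm : (fun i => μ i (closedNbhd (gr s p q) i)) =
      fun i => μ i (closedNbhd (gr s (fun _ => false) fun _ => false) i) := by
    funext i
    rw [nbhd_gr s p q i (hpq i), nbhd_gr s _ _ i rfl]
    have h := hpq i
    cases hpi : p i <;> cases hqi : q i
    · simp
    · simpa using key p hp e1 i (hq i hqi) hpi
    · simpa using key q hq e2 i (hp i hpi) hqi
    · simp [hpi, hqi] at h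
  have hG : HasInducedP3 (gr s p q) := by
    obtain ⟨z1, z2, z3⟩ := hz (s i0)
    have a1 : q i0 = false := by simpa [hi] using hpq i0
    have a2 : p j0 = false := by simpa [hj] using hpq j0
    have n1 : i0 ≠ z (s i0) := fun e => by rw [← e, hi] at z2; simp at z2
    have n2 : j0 ≠ z (s i0) := fun e => by rw [← e, hj] at z3; simp at z3
    have n3 : i0 ≠ j0 := fun e => by rw [e, a2] at hi; simp at hi
    by_cases h : s j0 = s i0
    · exact ⟨i0, z (s i0), j0, ⟨n1, by simp [z1, z2, z3]⟩, ⟨n2.symm, by simp [z1, z2, z3, h]⟩, n3,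
        fun e => by simpa [hi, hj, h] using e.2⟩
    · refine ⟨z (s i0), i0, j0, ⟨n1.symm, by simp [z1, z2, z3]⟩, ⟨n3, ?_⟩, n2.symm,
        fun e => h (by simpa [z1, z2, z3] using e.2)⟩
      revert h
      simp only [hi, hj]
      cases s i0 <;> cases s j0 <;> simp
  have hH : ¬ HasInducedP3 (gr s (fun _ => false) fun _ => false) := by
    rintro ⟨a, b, c, ⟨-, h3⟩, ⟨-, h4⟩, h5, h6⟩
    refine h6 ⟨h5, ?_⟩
    simp only [Bool.false_and, Bool.or_self, Bool.xor_false] at h3 h4 ⊢
    rw [h4, h3]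
  have hC : Nat.card (gr s (fun _ => false) fun _ => false).ConnectedComponent ≤ 2 := by
    refine (Nat.card_le_card_of_surjective
      (fun v => (gr s (fun _ => false) fun _ => false).connectedComponentMk (z v)) ?_).trans
      (by simp)
    intro C
    obtain ⟨i, rfl⟩ := C.exists_rep
    refine ⟨s i, SimpleGraph.ConnectedComponent.sound ?_⟩
    by_cases h : z (s i) = i
    · rw [h]
    · exact SimpleGraph.Adj.reachable ⟨h, by simp [(hz (s i)).1]⟩
  have := h1 _ hG
  rw [hm, h2 _ hH hC] at this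
  simp at this

theorem bound {M : ℕ} {μ : Fin n → Finset (Fin n) → List Bool}
    {R : (Fin n → List Bool) → Bool}
    (h1 : ∀ G : SimpleGraph (Fin n), HasInducedP3 G → R (fun i => μ i (closedNbhd G i)) = true)
    (h2 : ∀ G : SimpleGraph (Fin n), ¬ HasInducedP3 G → Nat.card G.ConnectedComponent ≤ 2 →
      R (fun i => μ i (closedNbhd G i)) = false)
    {T : Finset (Fin n)} {ν : Finset (Fin n) → Fin M}
    (hν : ∀ i ∈ T, ∀ A B, i ∈ A → i ∈ B → A \ T = B \ T → ν A = ν B → μ i A = μ i B) :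
    2 ^ T.card ≤ 32 * M ^ 4 := by
  have hM : 0 < M := (ν ∅).pos
  by_cases hT : T.card ≤ 5
  · calc 2 ^ T.card ≤ 2 ^ 5 := Nat.pow_le_pow_right (by norm_num) hT
      _ ≤ 32 * M ^ 4 := Nat.le_mul_of_pos_right _ (by positivity)
  obtain ⟨u, hu, w, hw, huw⟩ := one_lt_card.1 (by omega : 1 < T.card)
  have hc : ((T.erase u).erase w).card = T.card - 2 := by
    rw [card_erase_of_mem (mem_erase.2 ⟨huw.symm, hw⟩), card_erase_of_mem hu]
    omega
  obtain ⟨X, hX, hXc⟩ := exists_subset_card_eq (s := (T.erase u).erase w)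
    (n := (T.card - 2) / 2) (by omega)
  obtain ⟨Y, hY⟩ : ∃ Y, Y = (T.erase u).erase w \ X := ⟨_, rfl⟩
  have hYc : Y.card = T.card - 2 - (T.card - 2) / 2 := by
    rw [hY, card_sdiff_of_subset hX, hc, hXc]
  have hXT : ∀ i ∈ X, i ≠ w ∧ i ≠ u ∧ i ∈ T := fun i hi => by simpa using hX hi
  have hYT : ∀ i ∈ Y, (i ≠ w ∧ i ≠ u ∧ i ∈ T) ∧ i ∉ X := fun i hi => by simpa [hY] using hi
  let s : (X → Bool) → (Y → Bool) → Fin n → Bool := fun a b i =>
    if h : i ∈ X then a ⟨i, h⟩ else if h : i ∈ Y then b ⟨i, h⟩ else decide (i ≠ w)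
  have h := corner (fun a b v => ν (side (s a b) v)) fun a b a' b' e1 e2 => by
    by_contra hno
    push Not at hno
    obtain ⟨i0, hi0⟩ := Function.ne_iff.1 hno.1
    obtain ⟨j0, hj0⟩ := Function.ne_iff.1 hno.2
    have x1 : ∀ t : Fin n → Bool, (fun j => s a b j ^^ (s a b j ^^ t j)) = t := fun t =>
      funext fun j => by cases s a b j <;> cases t j <;> rfl
    have hp : ∀ i, (s a b i ^^ s a' b i) = true → i ∈ X := fun i hi => by
      by_contra hx
      simp [s, hx] at hi
    have hq : ∀ i, (s a b i ^^ s a b' i) = true → i ∈ Y := fun i hi => by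
      by_contra hy
      by_cases hx : i ∈ X <;> simp [s, hx, hy] at hi
    refine flip_false h1 h2 hν (s a b) (fun i => s a b i ^^ s a' b i)
      (fun i => s a b i ^^ s a b' i) (fun i => ?_) (fun i hi => (hXT i (hp i hi)).2.2)
      (fun i hi => (hYT i (hq i hi)).1.2.2) (fun v => if v then u else w) (fun v => ?_)
      (i0 := i0) (j0 := j0) ?_ ?_ (fun v => ?_) fun v => ?_
    · by_contra hno
      simp only [Bool.not_eq_false, Bool.and_eq_true] at hno
      exact (hYT i (hq i hno.2)).2 (hp i hno.1)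
    · have a1 : u ∉ X := fun h => (hXT u h).2.1 rfl
      have a2 : w ∉ X := fun h => (hXT w h).1 rfl
      have a3 : u ∉ Y := fun h => (hYT u h).1.2.1 rfl
      have a4 : w ∉ Y := fun h => (hYT w h).1.1 rfl
      cases v <;> simp [s, a1, a2, a3, a4, huw]
    · simpa [s, i0.2] using Ne.symm hi0
    · simpa [s, j0.2, (hYT _ j0.2).2] using Ne.symm hj0
    · rw [x1]
      exact congrFun e1 v
    · rw [x1]
      exact congrFun e2 v
  simp only [Fintype.card_fun, Fintype.card_bool, Fintype.card_coe, Fintype.card_fin] at h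
  have h3 : 2 ^ X.card ≤ 2 ^ Y.card := Nat.pow_le_pow_right (by norm_num) (by omega)
  have h4 : 2 ^ X.card ≤ 2 * M ^ 2 := by
    refine Nat.le_of_mul_le_mul_right (c := 2 ^ Y.card) (h.trans ?_) (by positivity)
    nlinarith [Nat.zero_le (M ^ 2)]
  calc 2 ^ T.card ≤ 2 ^ (3 + X.card + X.card) := Nat.pow_le_pow_right (by norm_num) (by omega)
    _ = 8 * (2 ^ X.card * 2 ^ X.card) := by ring
    _ ≤ 8 * ((2 * M ^ 2) * (2 * M ^ 2)) := Nat.mul_le_mul_left _ (Nat.mul_le_mul h4 h4)
    _ = 32 * M ^ 4 := by ring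

end Pool.Agent.FS.CommonSketch
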